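import Mathlib
import Pool.Agent.H590.CC.Line

/-!
# The orbits of all finite configurations are dense in almost every direction

The question is whether the orbit `F^n x` of a finite nonzero configuration `x` is dense, that is,
dense when it is seen from a fixed cell. Here it is seen from a moving cell. It is proved that it is
dense for almost every velocity `c` between the velocities `-log_6 (3/2)` and `1` of the edges of the
light cone: the points `σ^⌊c n⌋ F^n x` are dense, for all `x` at once, and for every word `w`
the velocities `c` of a compact part of this interval for which `F^n x` shows `w` at the cell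
`⌊c n⌋` only for finitely many `n` form a set of Hausdorff dimension at most `D < 1`, `D`
independent of `x`. The same is true for almost every `c` in the cells `⌊c f(n) + g(n)⌋`, for
all functions `f`, `g` with bounded steps for which `f` tends to infinity, however slowly, as long
as the cells move away from the edges. (The fixed cells are the case of constant `f`.)

From `H429R2.Auto` (library): `Conf`: bi-infinite words over `{0, …, 5}`; `F`: the automaton of the
problem; `IsFin`: finite configurations. `dimH` (Mathlib): Hausdorff dimension.

Method: in the cell `(n, a)` (time `n`, position `a`) stands the real number `β (3/2)^n 6^a`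
modulo one. By a version of Furstenberg's theorem with uniform bounds (library) every word stands
at a bounded distance from every cell in which `N` times this number is not near an integer, and
on every path which moves away from the edges there are such cells, by divisibility by powers of
two; on lines in every interval of times `[n, C n]`. Hence the set of the exceptional `c` is porous.
-/

set_option autoImplicit false

open Filter MeasureTheory
open scoped NNReal

namespace Pool.Agent.Results.MP_cc0c1a_nt.AlmostEveryDirection

open Pool.Agent.H429R2.Auto (Conf F IsFin)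

/-- The configuration `x` shows the word `w` at the cells `p, p + 1, …, p + |w| - 1`. -/
def ShowsAt (x : Conf) (w : List (Fin 6)) (p : ℤ) : Prop :=
  ∀ (i : ℕ) (h : i < w.length), x (p + i) = w[i]

/-- The configuration `y` seen from the cell `p`: the shift `σ^p y`. -/
def view (y : Conf) (p : ℤ) : Conf := fun i => y (p + i)

/-- (1) For every word `w` and `δ > 0` there is `D < 1` such that for every finite nonzero
configuration `x` the numbers `c ∈ [-log_6 (3/2) + δ, 1 - δ]` for which `F^n x` shows `w` at the
position `⌊c n⌋` for only finitely many `n` form a set of Hausdorff dimension at most `D`.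
(2) Let `f`, `g` be functions with steps of size at most `K`, let `f` tend to infinity, and let `I`
be a set of real numbers `c` for which `c f(n) + g(n)` moves away from the edges of the light cone:
`n - (c f(n) + g(n))` and `c f(n) + g(n) + n log_6 (3/2)` are unbounded. Then for almost every
`c ∈ I`, for every finite nonzero configuration `x`, the configurations
`σ^⌊c f(n) + g(n)⌋ F^n x`, `n ≥ 0`, are dense. -/
theorem result :
    (∀ (w : List (Fin 6)) (δ : ℝ), 0 < δ → ∃ D : ℝ≥0, D < 1 ∧ ∀ x : Conf, IsFin x → x ≠ 0 →
      dimH {c : ℝ | -Real.logb 6 (3 / 2) + δ ≤ c ∧ c ≤ 1 - δ ∧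
        ¬ ∃ᶠ n : ℕ in atTop, ShowsAt (F^[n] x) w ⌊c * n⌋} ≤ D) ∧
    (∀ (K : ℝ) (f g : ℕ → ℝ), (∀ n, |f (n + 1) - f n| ≤ K) → (∀ n, |g (n + 1) - g n| ≤ K) →
      Tendsto f atTop atTop → ∀ I : Set ℝ,
      (∀ c ∈ I, ∀ B : ℝ, ∃ n : ℕ, B < n - (c * f n + g n)) →
      (∀ c ∈ I, ∀ B : ℝ, ∃ n : ℕ, B < c * f n + g n + n * Real.logb 6 (3 / 2)) →
      ∀ᵐ c : ℝ, c ∈ I → ∀ x : Conf, IsFin x → x ≠ 0 →
        Dense (Set.range fun n : ℕ => view (F^[n] x) ⌊c * f n + g n⌋)) :=
  ⟨fun w _ hδ => Pool.Agent.H590.CC.lines w hδ,
    fun _ _ _ hf hg hft I h1 h2 => Pool.Agent.H590.CC.frames hf hg hft I h1 h2⟩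

end Pool.Agent.Results.MP_cc0c1a_nt.AlmostEveryDirection
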