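import Mathlib
import Pool.Agent.H590.CC.Banach

/-!
# Every word infinitely often at almost all positions of every window, uniformly

The orbit of a finite configuration `x` is dense if every word is shown at every position by some
`F^n x`. It is proved that, for every word `w` and `δ > 0`, in EVERY window of `M` consecutive
positions at most `δ M` positions are such that `w` is shown there for only finitely many `n`, as soon
as `M ≥ M₀(w, δ)`, where `M₀` depends neither on the window nor on the configuration `x`: the set
of the missed positions has upper Banach density zero, and the positions at which `w` is shown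
infinitely often have bounded gaps, uniformly in `x`. The times can be prescribed modulo `d`. More
generally, at infinitely many places of every path with bounded steps which moves away from both
edges of the light cone, `w` stands `M ^ (1 - ε)` times in each of almost all columns, near the path.

From `H429R2.Auto` (library): `Conf`: bi-infinite words over `{0, …, 5}`; `F`: the automaton of the
problem; `IsFin`: finite configurations.

Method: in the cell `(n, a)` (time `n`, position `a`) stands the real number `β (3/2)^n 6^a`
modulo one. Around every cell in which `N` times this number is not near an integer, the library's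
theorem on the anti-diagonals of the grid `θ 3^i 2^j` gives the cells with `w`; and on every path
which moves away from the edges there are such cells at arbitrarily large times, since otherwise the
nearest integers would be divisible by arbitrarily high powers of two.
-/

set_option autoImplicit false

open Filter

namespace Pool.Agent.Results.MP_cc0c1a_nt.BanachDensity

open Pool.Agent.H429R2.Auto (Conf F IsFin)

/-- The configuration `x` shows the word `w` at the cells `p, p + 1, …, p + |w| - 1`. -/
def ShowsAt (x : Conf) (w : List (Fin 6)) (p : ℤ) : Prop :=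
  ∀ (i : ℕ) (h : i < w.length), x (p + i) = w[i]

open Classical in
/-- (1) For every word `w`, `d ≥ 1` and `δ > 0` there is `M₀` such that for all `M ≥ M₀`, all finite
nonzero configurations `x` and all `J`: for all but at most `δ M` of the positions `j` with
`J ≤ j < J + M`, for every residue `b` modulo `d` the word `w` is shown by `F^n x` at `j` for
infinitely many `n ≡ b`.
(2) For every word `w`, `d ≥ 1`, `K`, `0 < ε ≤ 1` and `δ > 0` there are `C` and `M₀` such that for
all `M ≥ M₀`, all finite nonzero configurations `x`, all paths `p` with steps of size at most `K`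
such that `n - p n` and `p n + n log_6 (3/2)` are unbounded, and all residues `b` modulo `d`:
there are infinitely many times `n₀ ≡ b` such that for all but at most `δ M` of the positions
`j` with `p n₀ ≤ j < p n₀ + M` the word `w` is shown at `j` by `F^n x` for at least `M ^ (1 - ε)`
of the times `n ≡ b` with `|n - n₀| ≤ C M`. -/
theorem result :
    (∀ (w : List (Fin 6)) (d : ℕ), 1 ≤ d → ∀ δ : ℝ, 0 < δ → ∃ M₀ : ℕ, ∀ M : ℕ, M₀ ≤ M →
      ∀ x : Conf, IsFin x → x ≠ 0 → ∀ J : ℤ,
        (((Finset.Ico J (J + M)).filter (fun j : ℤ => ¬ ∀ b : ℕ, ∃ᶠ n : ℕ in atTop,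
          n ≡ b [MOD d] ∧ ShowsAt (F^[n] x) w j)).card : ℝ) ≤ δ * M) ∧
    (∀ (w : List (Fin 6)) (d K : ℕ), 1 ≤ d → ∀ ε δ : ℝ, 0 < ε → ε ≤ 1 → 0 < δ →
      ∃ C M₀ : ℕ, ∀ M : ℕ, M₀ ≤ M → ∀ x : Conf, IsFin x → x ≠ 0 →
      ∀ p : ℕ → ℤ, (∀ n, |p (n + 1) - p n| ≤ K) → (∀ B : ℝ, ∃ n : ℕ, B < n - p n) →
      (∀ B : ℝ, ∃ n : ℕ, B < p n + n * Real.logb 6 (3 / 2)) → ∀ b : ℕ,
      ∃ᶠ n₀ : ℕ in atTop, n₀ ≡ b [MOD d] ∧
        (((Finset.Ico (p n₀) (p n₀ + M)).filter (fun j : ℤ =>
          (((Finset.Icc (n₀ - C * M) (n₀ + C * M)).filter (fun n : ℕ =>
            n ≡ b [MOD d] ∧ ShowsAt (F^[n] x) w j)).card : ℝ) < (M : ℝ) ^ (1 - ε))).card : ℝ) ≤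
              δ * M) := by
  refine ⟨fun w d hd δ hδ => ?_, fun w d K hd ε δ hε hε1 hδ => ?_⟩
  · exact Pool.Agent.H590.CC.fixed_windows w hd hδ
  · exact Pool.Agent.H590.CC.windows w hd K hε hε1 hδ

end Pool.Agent.Results.MP_cc0c1a_nt.BanachDensity
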