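import Mathlib
import Pool.Agent.H590.CC.Iid

/-!
# The orbits of all finite configurations are dense in random frames

The question is whether the orbit `F^n x` of a finite nonzero configuration is dense, that is, dense
when it is seen from a fixed cell. Here it is seen from a cell which moves at random. At each time
the automaton is composed with a random shift `σ^s`; for the numbers `β = α(x)` this means that
instead of `β (3/2)^n` one considers random products: `β` is multiplied by `9`, by `1 / 4`, by
`3 / 2`, ..., in random order (`s = 1, -1, 0`). It is proved that almost surely, for all finite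
nonzero configurations at once, the configurations obtained are dense, if given the past each of the
steps `1`, `-1` has probability at least `c > 0` and if the cell moves away from both edges of the
light cone; for instance for independent steps with the same law which take the values `1` and `-1`
and whose mean is between the velocities `-log_6 (3/2)` and `1` of the edges. In the problem
all steps are `0`.

From `H429R2.Auto` (library): `Conf`: bi-infinite words over `{0, …, 5}`; `F`: the automaton of the
problem; `IsFin`: finite configurations.

Method: from a cell in which `N` times the number `β (3/2)^n 6^a` is not near an integer every word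
can be reached by a bounded number of steps `1` and `-1` (a uniform version of Furstenberg's theorem,
library); on every path which moves away from the edges there are such cells at arbitrarily large
times, by divisibility by powers of two; then the conditional Borel-Cantelli lemma.
-/

set_option autoImplicit false

open Filter MeasureTheory ProbabilityTheory

namespace Pool.Agent.Results.MP_cc0c1a_nt.RandomFrames

open Pool.Agent.H429R2.Auto (Conf F IsFin)

/-- The configuration `y` seen from the cell `p`: the shift `σ^p y`. -/
def view (y : Conf) (p : ℤ) : Conf := fun i => y (p + i)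

/-- The place after the steps `s 0, …, s (n - 1)`. -/
def place {Ω : Type*} (s : ℕ → Ω → ℤ) (n : ℕ) (ω : Ω) : ℤ := ∑ i ∈ Finset.range n, s i ω

/-- Let `s 0, s 1, …` be random integers of size at most `K`.
(1) Let the step `s n` be known at the time `n + 1`, and let its conditional probabilities to be `1`
and to be `-1`, given what is known at the time `n`, be at least `c > 0`. Then almost surely, if
`n - place n` and `place n + n log_6 (3/2)` are unbounded, for every finite nonzero configuration
`x` the configurations `σ^(place n) F^n x`, `n ≥ 0`, are dense.
(2) The same holds almost surely if the steps are independent and identically distributed, take the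
values `1` and `-1` with positive probabilities and have mean between `-log_6 (3/2)` and `1`. -/
theorem result {Ω : Type*} {m0 : MeasurableSpace Ω} (μ : Measure Ω) [IsProbabilityMeasure μ]
    (s : ℕ → Ω → ℤ) (K : ℕ) (hK : ∀ n ω, |s n ω| ≤ K) :
    (∀ (ℱ : Filtration ℕ m0) (c : ℝ), 0 < c → (∀ n, Measurable[ℱ (n + 1)] (s n)) →
      (∀ n, ∀ᵐ ω ∂μ, c ≤ (μ[({ω | s n ω = 1}).indicator (fun _ => (1 : ℝ)) | ℱ n]) ω) →
      (∀ n, ∀ᵐ ω ∂μ, c ≤ (μ[({ω | s n ω = -1}).indicator (fun _ => (1 : ℝ)) | ℱ n]) ω) →
      ∀ᵐ ω ∂μ, (∀ B : ℝ, ∃ n : ℕ, B < n - place s n ω) →
        (∀ B : ℝ, ∃ n : ℕ, B < place s n ω + n * Real.logb 6 (3 / 2)) →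
        ∀ x : Conf, IsFin x → x ≠ 0 →
          Dense (Set.range fun n : ℕ => view (F^[n] x) (place s n ω))) ∧
    ((∀ n, Measurable (s n)) → iIndepFun s μ → (∀ n, IdentDistrib (s n) (s 0) μ μ) →
      0 < μ {ω | s 0 ω = 1} → 0 < μ {ω | s 0 ω = -1} →
      -Real.logb 6 (3 / 2) < ∫ ω, (s 0 ω : ℝ) ∂μ → ∫ ω, (s 0 ω : ℝ) ∂μ < 1 →
      ∀ᵐ ω ∂μ, ∀ x : Conf, IsFin x → x ≠ 0 →
        Dense (Set.range fun n : ℕ => view (F^[n] x) (place s n ω))) :=
  ⟨fun _ _ hc hs h1 h2 => Pool.Agent.H590.CC.random_frames hs hc h1 h2 hK,
    fun hm hind hid h1 h2 h3 h4 => Pool.Agent.H590.CC.iid_frames hm hind hid hK h1 h2 h3 h4⟩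

end Pool.Agent.Results.MP_cc0c1a_nt.RandomFrames
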